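import Pool.Agent.H437.DP.Ex1
import Pool.Agent.H437.DP.Ex2
import Pool.Agent.H437.DP.Ex3
import Pool.Agent.H437.DP.Ex4
import Pool.Agent.H437.DP.Ex5
import Pool.Agent.H437.DP.Ex6

/-!
# The number of Brauer classes that obstruct rational points on del Pezzo surfaces of degree two

For every `r` from `1` to `6` there is a del Pezzo surface of degree two over `ℚ` that requires exactly
`r` Brauer classes.  The surfaces are `d w² = a (x⁴ + y⁴ + z⁴) + b (x² y² + y² z² + z² x²)` with

* `r = 1`: `a = 289`, `b = -514`, `d = 589`;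
* `r = 2`: `a = 25`, `b = -41`, `d = 17917`;
* `r = 3`: `a = 25`, `b = -34`, `d = 4141`;
* `r = 4`: `a = 25`, `b = -41`, `d = 3649`;
* `r = 5`: `a = 25`, `b = -34`, `d = 2881`;
* `r = 6`: `a = 25`, `b = -34`, `d = 193`.
-/

set_option autoImplicit false

namespace Pool.Agent.Results.MP_55a891_nt.NumberOfBrauerClasses

open Pool.Agent.H437.DP

/-- For every `r` from `1` to `6` there is a smooth surface `d w² = F(x, y, z)` over `ℚ` with seven
bitangents whose `64` classes `(∏ lᵢ, d)`, `i ∈ E`, `E` even, are unramified, such that there are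
adelic points and the least number of the classes that obstruct rational points is exactly `r`.  If
`r ≥ 2`, then none of the `63` classes with `E ≠ ∅` is constant, so the `64` classes are distinct
modulo constant classes. -/
theorem result : ∀ r : ℕ, 1 ≤ r → r ≤ 6 → ∃ X : Surface,
    X.Smooth ∧ X.Unramified ∧ X.AlmostTrivial ∧ (2 ≤ r → X.Independent) ∧ X.Requires r := by
  intro r h1 h6
  interval_cases r
  · exact ⟨Ex1.surface, Ex1.smooth, Ex1.unramified, Ex1.almostTrivial, by norm_num, Ex1.requires⟩
  · exact ⟨Ex2.surface, Ex2.smooth, Ex2.unramified, Ex2.almostTrivial, fun _ => Ex2.independent,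
      Ex2.requires⟩
  · exact ⟨Ex3.surface, Ex3.smooth, Ex3.unramified, Ex3.almostTrivial, fun _ => Ex3.independent,
      Ex3.requires⟩
  · exact ⟨Ex4.surface, Ex4.smooth, Ex4.unramified, Ex4.almostTrivial, fun _ => Ex4.independent,
      Ex4.requires⟩
  · exact ⟨Ex5.surface, Ex5.smooth, Ex5.unramified, Ex5.almostTrivial, fun _ => Ex5.independent,
      Ex5.requires⟩
  · exact ⟨Ex6.surface, Ex6.smooth, Ex6.unramified, Ex6.almostTrivial, fun _ => Ex6.independent,
      Ex6.requires⟩

end Pool.Agent.Results.MP_55a891_nt.NumberOfBrauerClasses
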